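import Pool.Agent.Helper93.KS.St

/-!
# Project KS, module DU: the deterministic recursion, upper bound with the rule `us`
-/

set_option autoImplicit false

noncomputable section

namespace Pool.Agent.Helper10.KS

open Finset Filter Topology Pool.Agent.Helper93.KS
open Pool.Agent.Helper15.AB (ee Kl StDB StMT)
open Pool.Agent.Helper9.TW (gm Qs fm StMER StC9)
open Pool.Agent.Helper18.TR (StLevel)
open Pool.Agent.Helper93.KP (gk vk tk rn gn TK qk StC8P StVLP StRTS StWEI)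

private theorem gm_le (j : ℕ) (hj : 1 ≤ j) : gm j ≤ 1 / j := by
  have h0 : (0 : ℝ) < j := by exact_mod_cast hj
  unfold gm
  have := Real.log_le_sub_one_of_pos (show (0 : ℝ) < ((j : ℝ) + 1) / j by positivity)
  refine this.trans (le_of_eq ?_)
  field_simp
  ring

private theorem gm_nonneg (j : ℕ) (hj : 1 ≤ j) : 0 ≤ gm j := by
  have h0 : (0 : ℝ) < j := by exact_mod_cast hj
  unfold gm
  apply Real.log_nonneg
  rw [le_div_iff₀ h0]
  linarith

private theorem kgm (κ j : ℕ) (hκ : κ ≤ 2) (hj : 8 ≤ j) :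
    0 ≤ (κ : ℝ) * gm j ∧ (κ : ℝ) * gm j ≤ 2 / j ∧ (κ : ℝ) * gm j ≤ 1 / 4 := by
  have h0 := gm_nonneg j (by omega)
  have h1 := gm_le j (by omega)
  have h2 : (κ : ℝ) ≤ 2 := by exact_mod_cast hκ
  have h3 : (8 : ℝ) ≤ j := by exact_mod_cast hj
  have h4 : (κ : ℝ) * gm j ≤ 2 * (1 / j) :=
    mul_le_mul h2 h1 h0 (by norm_num)
  have h5 : 2 * (1 / (j : ℝ)) = 2 / j := by ring
  have h6 : 2 / (j : ℝ) ≤ 1 / 4 := by
    rw [div_le_div_iff₀ (by linarith) (by norm_num)]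
    linarith
  exact ⟨by positivity, by linarith, by linarith⟩

/-- the additional term -/
private theorem eterm (κ j0 j : ℕ) (hV : StVB) (hκ : κ ≤ 2) (h8 : 8 ≤ j0) (hj : j0 ≤ j) :
    0 ≤ ((κ : ℝ) * gm j) ^ 2 / (2 * VV κ j0 j) ∧
      ((κ : ℝ) * gm j) ^ 2 / (2 * VV κ j0 j) ≤ 4 / (j0 : ℝ) ^ 2 := by
  obtain ⟨g0, g1, _⟩ := kgm κ j hκ (by omega)
  have hv := hV κ j0 j hκ h8 hj
  have hj0 : (8 : ℝ) ≤ j0 := by exact_mod_cast h8
  have hj1 : (j0 : ℝ) ≤ j := by exact_mod_cast hj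
  have hjp : (0 : ℝ) < j := by linarith
  have hj0p : (0 : ℝ) < j0 := by linarith
  have hq : 0 < ((j0 : ℝ) / j) ^ 2 := by positivity
  have hvp : 0 < 2 * VV κ j0 j := by linarith
  refine ⟨by positivity, ?_⟩
  rw [div_le_div_iff₀ hvp (by positivity)]
  have h1 : ((κ : ℝ) * gm j) ^ 2 ≤ (2 / (j : ℝ)) ^ 2 := pow_le_pow_left₀ g0 g1 2
  have h2 : (2 / (j : ℝ)) ^ 2 * (j0 : ℝ) ^ 2 = 4 * ((j0 : ℝ) / j) ^ 2 := by
    field_simp
    ring
  calc ((κ : ℝ) * gm j) ^ 2 * (j0 : ℝ) ^ 2 ≤ (2 / (j : ℝ)) ^ 2 * (j0 : ℝ) ^ 2 :=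
        mul_le_mul_of_nonneg_right h1 (by positivity)
    _ = 4 * ((j0 : ℝ) / j) ^ 2 := h2
    _ ≤ 4 * (2 * VV κ j0 j) := by linarith

/-- the chain of applications of the rule `us` -/
private theorem chain (κ j0 Nm N : ℕ) (U L : ℕ → ℕ → ℝ → Prop) (hAx : Bx κ j0 Nm U L) (hV : StVB)
    (hκ : κ ≤ 2) (h8 : 8 ≤ j0) (hNm : N ≤ Nm) (j1 : ℕ) (hj1 : j0 ≤ j1) (l a : ℝ) (hl : 0 ≤ l)
    (ha : 0 ≤ a) (hst : U N j1 a) (j : ℕ) (hj : j1 ≤ j) : 3 * j ≤ N →
    (∀ j' : ℕ, j1 ≤ j' → j' < j → L (N - (j' + 1)) j' l) →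
    1 ≤ ∏ j' ∈ Ico j1 j, 1 / (1 - (κ : ℝ) * gm j') ∧
    ∃ u : ℝ, U N j u ∧ 0 ≤ u ∧ u + l ≤ (∏ j' ∈ Ico j1 j, 1 / (1 - (κ : ℝ) * gm j')) *
      (a + l + ((j : ℝ) - j1) * (4 / (j0 : ℝ) ^ 2)) := by
  induction j, hj using Nat.le_induction with
  | base =>
    intro _ _
    refine ⟨by simp, a, hst, ha, by simp⟩
  | succ j hj ih =>
    intro h3 hL
    obtain ⟨hP, u, h4, h5, h6⟩ := ih (by omega) (fun j' h6 h7 => hL j' h6 (by omega))
    have h7 := hL j hj (by omega)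
    obtain ⟨g0, g1, g2⟩ := kgm κ j hκ (by omega)
    obtain ⟨e0, e1⟩ := eterm κ j0 j hV hκ h8 (by omega)
    have hg : 0 < 1 - (κ : ℝ) * gm j := by linarith
    have hprod : ∏ j' ∈ Ico j1 (j + 1), 1 / (1 - (κ : ℝ) * gm j') =
        (∏ j' ∈ Ico j1 j, 1 / (1 - (κ : ℝ) * gm j')) * (1 / (1 - (κ : ℝ) * gm j)) :=
      Finset.prod_Ico_succ_top hj _
    have h1g : 1 ≤ 1 / (1 - (κ : ℝ) * gm j) := by
      rw [le_div_iff₀ hg]
      linarith
    have hus := hAx.us N j u l (by omega) h3 hNm h5 hl h4 h7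
    refine ⟨?_, _, hus, ?_, ?_⟩
    · rw [hprod]
      exact one_le_mul_of_one_le_of_one_le hP h1g
    · have : 0 ≤ (κ : ℝ) * gm j * l := mul_nonneg g0 hl
      exact div_nonneg (by linarith) hg.le
    · rw [hprod]
      obtain ⟨E, hE⟩ : ∃ E, E = ((κ : ℝ) * gm j) ^ 2 / (2 * VV κ j0 j) := ⟨_, rfl⟩
      obtain ⟨P, hPd⟩ : ∃ P, P = ∏ j' ∈ Ico j1 j, 1 / (1 - (κ : ℝ) * gm j') := ⟨_, rfl⟩
      rw [← hE] at e0 e1 ⊢
      rw [← hPd] at hP h6 ⊢
      have h8' : (u + (κ : ℝ) * gm j * l + E) / (1 - (κ : ℝ) * gm j) + l =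
          (u + l + E) * (1 / (1 - (κ : ℝ) * gm j)) := by
        field_simp
        ring
      rw [h8']
      have h9 : u + l + E ≤ P * (a + l + (((j + 1 : ℕ) : ℝ) - j1) * (4 / (j0 : ℝ) ^ 2)) := by
        have h10 : E ≤ P * (4 / (j0 : ℝ) ^ 2) := by
          have h11 : 0 ≤ 4 / (j0 : ℝ) ^ 2 := by positivity
          calc E ≤ 4 / (j0 : ℝ) ^ 2 := e1
            _ = 1 * (4 / (j0 : ℝ) ^ 2) := (one_mul _).symm
            _ ≤ P * (4 / (j0 : ℝ) ^ 2) := mul_le_mul_of_nonneg_right hP h11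
        have h12 : P * (a + l + (((j + 1 : ℕ) : ℝ) - j1) * (4 / (j0 : ℝ) ^ 2)) =
            P * (a + l + ((j : ℝ) - j1) * (4 / (j0 : ℝ) ^ 2)) + P * (4 / (j0 : ℝ) ^ 2) := by
          push_cast
          ring
        rw [h12]
        linarith
      calc (u + l + E) * (1 / (1 - (κ : ℝ) * gm j)) ≤
            P * (a + l + (((j + 1 : ℕ) : ℝ) - j1) * (4 / (j0 : ℝ) ^ 2)) *
              (1 / (1 - (κ : ℝ) * gm j)) :=
            mul_le_mul_of_nonneg_right h9 (by linarith)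
        _ = P * (1 / (1 - (κ : ℝ) * gm j)) *
              (a + l + (((j + 1 : ℕ) : ℝ) - j1) * (4 / (j0 : ℝ) ^ 2)) := by ring

/-- the final computation -/
private theorem fin_DU (r c l η δ δ' R X u : ℝ) (hr : 1 ≤ r) (hc : 0 ≤ c) (hl : 0 ≤ l) (hη : 0 < η)
    (hδ0 : 0 ≤ δ) (hX0 : 0 ≤ X) (hR : R ≤ r + δ) (hX : X ≤ δ')
    (hδ' : δ' ≤ η / (4 * r)) (hδ : δ * (4 * (c + l + η)) ≤ η)
    (hu : u + (l + η / (8 * r)) ≤ R * (c + η / (8 * r) + (l + η / (8 * r)) + X)) :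
    u ≤ r * c + (r - 1) * l + η := by
  obtain ⟨e, he⟩ : ∃ e, e = η / (8 * r) := ⟨_, rfl⟩
  have hr0 : 0 < r := by linarith
  have he1 : r * e = η / 8 := by
    rw [he]
    field_simp
  have he0 : 0 < e := by
    rw [he]
    positivity
  have he2 : η / (4 * r) = 2 * e := by
    rw [he]
    field_simp
    ring
  have he3 : e ≤ η / 8 := by
    rw [he]
    apply div_le_div_of_nonneg_left hη.le (by norm_num)
    linarith
  rw [← he] at hu
  rw [he2] at hδ'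
  have hX2 : X ≤ 2 * e := hX.trans hδ'
  have h1 : R * (c + e + (l + e) + X) ≤ (r + δ) * (c + e + (l + e) + X) :=
    mul_le_mul_of_nonneg_right hR (by linarith)
  have h2 : (r + δ) * (c + e + (l + e) + X) ≤ (r + δ) * (c + e + (l + e) + 2 * e) :=
    mul_le_mul_of_nonneg_left (by linarith) (by linarith)
  have h3 : (r + δ) * (c + e + (l + e) + 2 * e) = r * c + r * l + 4 * (r * e) +
      δ * (c + l + 4 * e) := by ring
  have h4 : δ * (c + l + 4 * e) ≤ δ * (c + l + η) :=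
    mul_le_mul_of_nonneg_left (by linarith) hδ0
  have h5 : δ * (c + l + η) ≤ η / 4 := by linarith
  rw [he1] at h3
  linarith

theorem hDU (hR : StRB) (hV : StVB) : StDU := by
  intro κ S K i c l hκ hK hi hc hl hU hL η hη
  have hKR : (1 : ℝ) ≤ K := by exact_mod_cast hK
  have hiR : (3 : ℝ) * K ≤ i := by exact_mod_cast hi
  have hi3 : (3 : ℝ) ≤ i := by linarith
  obtain ⟨r, hrd⟩ : ∃ r : ℝ, r = (((i : ℝ) + 1) / i) ^ κ := ⟨_, rfl⟩
  have hr : 1 ≤ r := by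
    rw [hrd]
    apply one_le_pow₀
    rw [le_div_iff₀ (by linarith)]
    linarith
  rw [← hrd]
  have hη' : 0 < η / (8 * r) := by positivity
  obtain ⟨C, js0, hC, h80, hRB⟩ := hR κ K i hκ hK (by omega)
  obtain ⟨js1, h1⟩ := hU (η / (8 * r)) hη'
  obtain ⟨js2, h2⟩ := hL (η / (8 * r)) hη'
  obtain ⟨js3, h3⟩ := exists_nat_ge (4 * S / (η / (4 * r)))
  obtain ⟨js4, h4⟩ := exists_nat_ge (C * (4 * (c + l + η)) / η)
  refine ⟨js0 + js1 + js2 + js3 + js4, ?_⟩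
  intro j0 hj0 U L hAx j N hj hN hs
  have h8 : 8 ≤ j0 := by omega
  have hj0R : (8 : ℝ) ≤ j0 := by exact_mod_cast h8
  have hj0p : (0 : ℝ) < j0 := by linarith
  have hj3 : (js3 : ℝ) ≤ j0 := by exact_mod_cast (by omega : js3 ≤ j0)
  have hj4 : (js4 : ℝ) ≤ j0 := by exact_mod_cast (by omega : js4 ≤ j0)
  have hsK : (i : ℝ) * j ≤ K * N := by
    rw [div_mul_eq_mul_div, div_le_iff₀ (by linarith)] at hs
    linarith
  have hsN : i * j ≤ K * N := by exact_mod_cast hsK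
  have hη'η : η / (8 * r) ≤ η := by
    rw [div_le_iff₀ (by positivity)]
    nlinarith
  have hrl : 0 ≤ (r - 1) * l := mul_nonneg (by linarith) hl
  have hrc : c ≤ r * c := by nlinarith
  by_cases hcase : (i + 1) * j ≤ K * N
  · refine hAx.um N j _ _ (h1 j0 (by omega) U L hAx j N hj hN ?_) (by linarith)
    have h6 : ((i : ℝ) + 1) * j ≤ K * N := by exact_mod_cast hcase
    rw [div_mul_eq_mul_div, div_le_iff₀ (by linarith)]
    linarith
  · obtain ⟨j1, hj01, hj1j, hor, hprod⟩ := hRB j0 j N (by omega) hj hsN (not_le.1 hcase)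
    have hstart : U N j1 (c + η / (8 * r)) := by
      rcases hor with h5 | h5
      · rw [h5]
        exact hAx.um N j0 _ _ (hAx.u0 N hN) (by linarith)
      · refine h1 j0 (by omega) U L hAx j1 N hj01 hN ?_
        have h7 : ((i : ℝ) + 1) * j1 ≤ K * N := by exact_mod_cast h5
        rw [div_mul_eq_mul_div, div_le_iff₀ (by linarith)]
        linarith
    have h3j : 3 * j ≤ N := by
      have h4 : K * (3 * j) ≤ K * N := by
        calc K * (3 * j) = 3 * K * j := by ring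
          _ ≤ i * j := Nat.mul_le_mul_right _ hi
          _ ≤ K * N := hsN
      exact Nat.le_of_mul_le_mul_left h4 (by omega)
    have hLc : ∀ j' : ℕ, j1 ≤ j' → j' < j → L (N - (j' + 1)) j' (l + η / (8 * r)) := by
      intro j' h6 h7
      have h8 : N - (j' + 1) ≤ S * j0 := (Nat.sub_le _ _).trans hN
      refine h2 j0 (by omega) U L hAx j' _ (by omega) h8 ?_
      have h10 : i * (j' + 1) ≤ K * N := (Nat.mul_le_mul_left _ (by omega)).trans hsN
      have h11 : ((N - (j' + 1) : ℕ) : ℝ) = (N : ℝ) - (j' + 1) := by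
        rw [Nat.cast_sub (by omega)]
        push_cast
        ring
      have h12 : (i : ℝ) * (j' + 1) ≤ K * N := by exact_mod_cast h10
      rw [h11, div_mul_eq_mul_div, div_le_iff₀ (by linarith)]
      nlinarith
    obtain ⟨hP1, u, hu1, hu2, hu3⟩ := chain κ j0 (S * j0) N U L hAx hV hκ h8 hN j1 hj01
      (l + η / (8 * r)) (c + η / (8 * r)) (by linarith) (by linarith) hstart j hj1j h3j hLc
    refine hAx.um N j _ _ hu1 ?_
    have hjS : (j : ℝ) ≤ S * j0 := by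
      have : j ≤ S * j0 := by omega
      exact_mod_cast this
    have hj1R : (j1 : ℝ) ≤ j := by exact_mod_cast hj1j
    have hj10 : (0 : ℝ) ≤ j1 := by positivity
    refine fin_DU r c l η (C / j0) (4 * S / j0) _ (((j : ℝ) - j1) * (4 / (j0 : ℝ) ^ 2)) u hr hc hl
      hη (by positivity) ?_ ?_ ?_ ?_ ?_ hu3
    · exact mul_nonneg (by linarith) (by positivity)
    · rw [hrd]
      exact hprod
    · calc ((j : ℝ) - j1) * (4 / (j0 : ℝ) ^ 2) ≤ (S * j0) * (4 / (j0 : ℝ) ^ 2) :=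
            mul_le_mul_of_nonneg_right (by linarith) (by positivity)
        _ = 4 * S / j0 := by
            field_simp
    · rw [div_le_iff₀ hj0p]
      have h5 := h3.trans hj3
      rw [div_le_iff₀ (by positivity)] at h5
      linarith
    · have h5 := h4.trans hj4
      rw [div_le_iff₀ hη] at h5
      rw [div_mul_eq_mul_div, div_le_iff₀ hj0p]
      linarith

end Pool.Agent.Helper10.KS
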