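import Pool.Agent.Helper93.KS.St3

/-!
# Project KS, module DUA: duality bound for the number of exceptional characters
-/

set_option autoImplicit false

noncomputable section

namespace Pool.Agent.Helper10.KS

open Finset Filter Topology Pool.Agent.Helper93.KS
open Pool.Agent.Helper15.AB (StMT)
open Pool.Agent.Helper18.TR (StBonf StFLmain StLevel)
open Pool.Agent.Helper9.TW (gm Qs fm)
open Pool.Agent.Helper93.KP (gk vk tk rn gn TK qk StRTS)

/-- the tuples -/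
private def TT (S : Finset ℕ) (m : ℕ) : Finset (Fin m → ℕ) := Fintype.piFinset (fun _ : Fin m => S)

private theorem fib_card (S : Finset ℕ) (m M : ℕ) (hS : ∀ p ∈ S, p.Prime) :
    ((TT S m).filter (fun t => ∏ i, t i = M)).card ≤ m ^ m := by
  rcases Finset.eq_empty_or_nonempty ((TT S m).filter (fun t => ∏ i, t i = M)) with h | ⟨t0, h0⟩
  · rw [h]; simp
  · obtain ⟨h1, h2⟩ := Finset.mem_filter.1 h0
    have h1' : ∀ i, t0 i ∈ S := Fintype.mem_piFinset.1 h1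
    have hsub : (TT S m).filter (fun t => ∏ i, t i = M) ⊆
        Fintype.piFinset (fun _ : Fin m => (Finset.univ : Finset (Fin m)).image t0) := by
      intro t ht
      obtain ⟨h3, h4⟩ := Finset.mem_filter.1 ht
      have h3' : ∀ i, t i ∈ S := Fintype.mem_piFinset.1 h3
      refine Fintype.mem_piFinset.2 fun i => ?_
      have hd : t i ∣ ∏ j, t0 j := by
        rw [h2, ← h4]
        exact Finset.dvd_prod_of_mem _ (Finset.mem_univ i)
      obtain ⟨j, _, hj⟩ := ((hS _ (h3' i)).prime.dvd_finsetProd_iff _).1 hd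
      have he := (Nat.prime_dvd_prime_iff_eq (hS _ (h3' i)) (hS _ (h1' j))).1 hj
      exact Finset.mem_image.2 ⟨j, Finset.mem_univ j, he.symm⟩
    refine (Finset.card_le_card hsub).trans ?_
    rw [Fintype.card_piFinset]
    simp only [Finset.prod_const, Finset.card_univ, Fintype.card_fin]
    exact Nat.pow_le_pow_left (Finset.card_image_le.trans (by simp)) m

private theorem expandT (S : Finset ℕ) (m : ℕ) (x : ℕ → ℂ) (hx1 : x 1 = 1)
    (hx : ∀ a b, x (a * b) = x a * x b) :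
    (∑ p ∈ S, x p / p) ^ m = ∑ t ∈ TT S m, x (∏ i, t i) / ((∏ i, t i : ℕ) : ℂ) := by
  have hprod : ∀ t : Fin m → ℕ, x (∏ i, t i) = ∏ i, x (t i) := by
    intro t
    let φ : ℕ →* ℂ := { toFun := x, map_one' := hx1, map_mul' := hx }
    exact map_prod φ t Finset.univ
  have e1 : (∑ p ∈ S, x p / p) ^ m = ∑ t ∈ TT S m, ∏ i, (x (t i) / (t i : ℂ)) := by
    have := (Finset.prod_univ_sum (fun _ : Fin m => S) (fun (_ : Fin m) (p : ℕ) => x p / (p : ℂ)))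
    rw [← show (∏ _i : Fin m, ∑ p ∈ S, x p / (p : ℂ)) = (∑ p ∈ S, x p / (p : ℂ)) ^ m by simp]
    exact this
  rw [e1]
  refine Finset.sum_congr rfl fun t _ => ?_
  rw [Finset.prod_div_distrib, hprod, Nat.cast_prod]

private theorem tsum_inv (S : Finset ℕ) (m : ℕ) :
    ∑ t ∈ TT S m, 1 / ((∏ i, t i : ℕ) : ℝ) = (∑ p ∈ S, 1 / (p : ℝ)) ^ m := by
  have := (Finset.prod_univ_sum (fun _ : Fin m => S) (fun (_ : Fin m) (p : ℕ) => 1 / (p : ℝ)))
  rw [show (∏ _i : Fin m, ∑ p ∈ S, 1 / (p : ℝ)) = (∑ p ∈ S, 1 / (p : ℝ)) ^ m by simp] at this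
  rw [this]
  refine Finset.sum_congr rfl fun t _ => ?_
  rw [Nat.cast_prod, Finset.prod_div_distrib]
  simp

/-- the duality inequality -/
private theorem dual {ι : Type} (P : Finset ι) (w : ι → ℕ) (X Y Q : ℕ) (σ : ℕ → ℝ)
    (E : Finset ℕ) (x : ℕ → ℕ → ℂ) (Δ D e : ℝ) (hΔ : 0 < Δ) (he : 0 ≤ e)
    (hw : ∑ t ∈ P, 1 / (w t : ℝ) ≤ 1) (hfib : ∀ M, (P.filter (fun t => w t = M)).card ≤ Q)
    (hXY : ∀ t ∈ P, w t ∈ Ioc X Y) (hσ : ∀ M, 0 ≤ σ M) (hσ1 : ∀ t ∈ P, 1 ≤ σ (w t))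
    (hbig : ∀ n ∈ E, Δ ≤ ‖∑ t ∈ P, x n (w t) / (w t : ℂ)‖)
    (hdiag : ∀ n ∈ E, ‖∑ M ∈ Ioc X Y, (σ M : ℂ) * (x n M * (starRingEnd ℂ) (x n M)) / M‖ ≤ D)
    (hoff : ∀ n ∈ E, ∀ n' ∈ E, n ≠ n' →
      ‖∑ M ∈ Ioc X Y, (σ M : ℂ) * (x n M * (starRingEnd ℂ) (x n' M)) / M‖ ≤ e) :
    ((E.card : ℝ) * Δ) ^ 2 ≤ Q * ((E.card : ℝ) * D + (E.card : ℝ) ^ 2 * e) := by
  obtain ⟨A, hA⟩ : ∃ A : ℕ → ℂ, ∀ n, A n = ∑ t ∈ P, x n (w t) / (w t : ℂ) := ⟨_, fun _ => rfl⟩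
  obtain ⟨c, hc⟩ : ∃ c : ℕ → ℂ, ∀ n, c n = (starRingEnd ℂ) (A n) / (‖A n‖ : ℂ) := ⟨_, fun _ => rfl⟩
  have hApos : ∀ n ∈ E, 0 < ‖A n‖ := fun n hn => by
    have := hbig n hn
    rw [← hA n] at this
    linarith
  have hcA : ∀ n ∈ E, c n * A n = (‖A n‖ : ℂ) := by
    intro n hn
    have h0 : (‖A n‖ : ℂ) ≠ 0 := by exact_mod_cast (hApos n hn).ne'
    rw [hc n, div_mul_eq_mul_div, mul_comm, Complex.mul_conj, Complex.normSq_eq_norm_sq,
      div_eq_iff h0]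
    push_cast
    ring
  have hcn : ∀ n ∈ E, ‖c n‖ = 1 := by
    intro n hn
    rw [hc n, norm_div, RCLike.norm_conj, Complex.norm_real, norm_norm, div_self (hApos n hn).ne']
  obtain ⟨V, hV⟩ : ∃ V : ℕ → ℂ, ∀ M, V M = ∑ n ∈ E, c n * x n M := ⟨_, fun _ => rfl⟩
  -- lower bound
  have h1 : (E.card : ℝ) * Δ ≤ ∑ t ∈ P, ‖V (w t)‖ / (w t : ℝ) := by
    have h2 : (E.card : ℝ) * Δ ≤ ∑ n ∈ E, ‖A n‖ := by
      rw [← nsmul_eq_mul]
      refine Finset.card_nsmul_le_sum _ _ _ fun n hn => ?_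
      have := hbig n hn
      rwa [← hA n] at this
    have h3 : ((∑ n ∈ E, ‖A n‖ : ℝ) : ℂ) = ∑ t ∈ P, V (w t) / (w t : ℂ) := by
      rw [Complex.ofReal_sum, Finset.sum_congr rfl (fun n hn => (hcA n hn).symm)]
      simp_rw [hA, hV, Finset.mul_sum, Finset.sum_div]
      rw [Finset.sum_comm]
      refine Finset.sum_congr rfl fun t _ => Finset.sum_congr rfl fun n _ => ?_
      rw [mul_div_assoc]
    have h4 : (∑ n ∈ E, ‖A n‖ : ℝ) = ‖∑ t ∈ P, V (w t) / (w t : ℂ)‖ := by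
      rw [← h3, Complex.norm_real, Real.norm_eq_abs,
        abs_of_nonneg (Finset.sum_nonneg fun n _ => norm_nonneg _)]
    rw [h4] at h2
    refine h2.trans ((norm_sum_le _ _).trans (le_of_eq ?_))
    refine Finset.sum_congr rfl fun t _ => ?_
    rw [norm_div, Complex.norm_natCast]
  -- Cauchy-Schwarz
  have h5 : (∑ t ∈ P, ‖V (w t)‖ / (w t : ℝ)) ^ 2 ≤
      (∑ t ∈ P, 1 / (w t : ℝ)) * ∑ t ∈ P, ‖V (w t)‖ ^ 2 / (w t : ℝ) := by
    refine Finset.sum_sq_le_sum_mul_sum_of_sq_le_mul P (fun t _ => by positivity)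
      (fun t _ => by positivity) (fun t _ => le_of_eq ?_)
    ring
  have h6 : 0 ≤ ∑ t ∈ P, ‖V (w t)‖ ^ 2 / (w t : ℝ) :=
    Finset.sum_nonneg fun t _ => by positivity
  -- fibres
  have h7 : ∑ t ∈ P, ‖V (w t)‖ ^ 2 / (w t : ℝ) ≤
      Q * ∑ M ∈ Ioc X Y, σ M * (‖V M‖ ^ 2 / M) := by
    rw [← Finset.sum_fiberwise_of_maps_to hXY, Finset.mul_sum]
    refine Finset.sum_le_sum fun M _ => ?_
    rw [Finset.sum_congr rfl (g := fun _ => ‖V M‖ ^ 2 / (M : ℝ))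
      (fun t ht => by rw [(Finset.mem_filter.1 ht).2])]
    rw [Finset.sum_const, nsmul_eq_mul]
    have hv : 0 ≤ ‖V M‖ ^ 2 / (M : ℝ) := by positivity
    rcases Finset.eq_empty_or_nonempty (P.filter (fun t => w t = M)) with h8 | ⟨t0, h8⟩
    · rw [h8]
      have := mul_nonneg (hσ M) hv
      simp only [Finset.card_empty, Nat.cast_zero, zero_mul]
      positivity
    · obtain ⟨h9, h10⟩ := Finset.mem_filter.1 h8
      have h11 := hσ1 t0 h9
      rw [h10] at h11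
      have h12 : ((P.filter (fun t => w t = M)).card : ℝ) ≤ Q := by exact_mod_cast hfib M
      calc ((P.filter (fun t => w t = M)).card : ℝ) * (‖V M‖ ^ 2 / (M : ℝ)) ≤
            Q * (‖V M‖ ^ 2 / (M : ℝ)) := mul_le_mul_of_nonneg_right h12 hv
        _ = Q * (1 * (‖V M‖ ^ 2 / (M : ℝ))) := by ring
        _ ≤ Q * (σ M * (‖V M‖ ^ 2 / (M : ℝ))) :=
            mul_le_mul_of_nonneg_left (mul_le_mul_of_nonneg_right h11 hv) (Nat.cast_nonneg _)
  -- expansion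
  obtain ⟨B, hB⟩ : ∃ B : ℕ → ℕ → ℂ, ∀ n n', B n n' =
      ∑ M ∈ Ioc X Y, (σ M : ℂ) * (x n M * (starRingEnd ℂ) (x n' M)) / M := ⟨_, fun _ _ => rfl⟩
  have h13 : ((∑ M ∈ Ioc X Y, σ M * (‖V M‖ ^ 2 / M) : ℝ) : ℂ) =
      ∑ n ∈ E, ∑ n' ∈ E, c n * (starRingEnd ℂ) (c n') * B n n' := by
    have h14 : ∀ M : ℕ, ((σ M * (‖V M‖ ^ 2 / M) : ℝ) : ℂ) = ∑ n ∈ E, ∑ n' ∈ E,
        c n * (starRingEnd ℂ) (c n') * ((σ M : ℂ) * (x n M * (starRingEnd ℂ) (x n' M)) / M) := by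
      intro M
      have h15 : ((‖V M‖ ^ 2 : ℝ) : ℂ) = V M * (starRingEnd ℂ) (V M) := by
        rw [Complex.mul_conj, Complex.normSq_eq_norm_sq]
      push_cast
      push_cast at h15
      rw [h15, hV, map_sum, Finset.sum_mul_sum, Finset.sum_div, Finset.mul_sum]
      refine Finset.sum_congr rfl fun n _ => ?_
      rw [Finset.sum_div, Finset.mul_sum]
      refine Finset.sum_congr rfl fun n' _ => ?_
      rw [map_mul]
      ring
    rw [Complex.ofReal_sum, Finset.sum_congr rfl (fun M _ => h14 M), Finset.sum_comm]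
    refine Finset.sum_congr rfl fun n _ => ?_
    rw [Finset.sum_comm]
    refine Finset.sum_congr rfl fun n' _ => ?_
    rw [hB, Finset.mul_sum]
  have h16 : ∑ M ∈ Ioc X Y, σ M * (‖V M‖ ^ 2 / M) ≤ (E.card : ℝ) * D + (E.card : ℝ) ^ 2 * e := by
    have h17 : 0 ≤ ∑ M ∈ Ioc X Y, σ M * (‖V M‖ ^ 2 / M) :=
      Finset.sum_nonneg fun M _ => mul_nonneg (hσ M) (by positivity)
    have h18 : ∑ M ∈ Ioc X Y, σ M * (‖V M‖ ^ 2 / M) =
        ‖∑ n ∈ E, ∑ n' ∈ E, c n * (starRingEnd ℂ) (c n') * B n n'‖ := by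
      rw [← h13, Complex.norm_real, Real.norm_eq_abs, abs_of_nonneg h17]
    rw [h18]
    calc ‖∑ n ∈ E, ∑ n' ∈ E, c n * (starRingEnd ℂ) (c n') * B n n'‖ ≤
          ∑ n ∈ E, ‖∑ n' ∈ E, c n * (starRingEnd ℂ) (c n') * B n n'‖ := norm_sum_le _ _
      _ ≤ ∑ n ∈ E, (D + (E.card : ℝ) * e) := by
          refine Finset.sum_le_sum fun n hn => ?_
          rw [← Finset.add_sum_erase _ _ hn]
          refine (norm_add_le _ _).trans (add_le_add ?_ ?_)
          · rw [norm_mul, norm_mul, RCLike.norm_conj, hcn n hn, one_mul, one_mul, hB]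
            exact hdiag n hn
          · refine (norm_sum_le _ _).trans ?_
            calc ∑ n' ∈ E.erase n, ‖c n * (starRingEnd ℂ) (c n') * B n n'‖ ≤
                  ∑ n' ∈ E.erase n, e := by
                  refine Finset.sum_le_sum fun n' hn' => ?_
                  obtain ⟨h19, h20⟩ := Finset.mem_erase.1 hn'
                  rw [norm_mul, norm_mul, RCLike.norm_conj, hcn n hn, hcn n' h20, one_mul, one_mul,
                    hB]
                  exact hoff n hn n' h20 (Ne.symm h19)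
              _ = ((E.erase n).card : ℝ) * e := by rw [Finset.sum_const, nsmul_eq_mul]
              _ ≤ (E.card : ℝ) * e := by
                  refine mul_le_mul_of_nonneg_right ?_ he
                  exact_mod_cast Finset.card_erase_le
      _ = (E.card : ℝ) * D + (E.card : ℝ) ^ 2 * e := by
          rw [Finset.sum_const, nsmul_eq_mul]
          ring
  have h0 : 0 ≤ (E.card : ℝ) * Δ := by positivity
  calc ((E.card : ℝ) * Δ) ^ 2 ≤ (∑ t ∈ P, ‖V (w t)‖ / (w t : ℝ)) ^ 2 :=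
        pow_le_pow_left₀ h0 h1 2
    _ ≤ (∑ t ∈ P, 1 / (w t : ℝ)) * ∑ t ∈ P, ‖V (w t)‖ ^ 2 / (w t : ℝ) := h5
    _ ≤ 1 * ∑ t ∈ P, ‖V (w t)‖ ^ 2 / (w t : ℝ) := mul_le_mul_of_nonneg_right hw h6
    _ = ∑ t ∈ P, ‖V (w t)‖ ^ 2 / (w t : ℝ) := one_mul _
    _ ≤ Q * ∑ M ∈ Ioc X Y, σ M * (‖V M‖ ^ 2 / M) := h7
    _ ≤ _ := mul_le_mul_of_nonneg_left h16 (Nat.cast_nonneg _)

/-- the last computation -/
private theorem fin_DUA (R N d2 D Q e : ℝ) (hR0 : 0 ≤ R) (hN : 1 ≤ N) (hQ : 0 ≤ Q) (hRN : R ≤ 2 * N)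
    (hD : 0 ≤ D) (he : e ≤ 512 / N ^ 6) (h : R ^ 2 * d2 ≤ Q * (R * D + R ^ 2 * e)) :
    R * d2 ≤ Q * (D + 1024) := by
  rcases hR0.eq_or_lt with h0 | h0
  · rw [← h0, zero_mul]
    positivity
  · have h1 : R * e ≤ 1024 := by
      have h2 : R * e ≤ R * (512 / N ^ 6) := mul_le_mul_of_nonneg_left he hR0
      have h3 : R * (512 / N ^ 6) ≤ (2 * N) * (512 / N ^ 6) :=
        mul_le_mul_of_nonneg_right hRN (by positivity)
      have h4 : (2 * N) * (512 / N ^ 6) ≤ 1024 := by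
        rw [mul_div_assoc', div_le_iff₀ (by positivity)]
        have h5 : N ≤ N ^ 6 := le_self_pow₀ hN (by norm_num)
        nlinarith
      linarith
    have h2 : R * (R * d2) ≤ R * (Q * (D + 1024)) := by
      calc R * (R * d2) = R ^ 2 * d2 := by ring
        _ ≤ Q * (R * D + R ^ 2 * e) := h
        _ = R * (Q * (D + R * e)) := by ring
        _ ≤ R * (Q * (D + 1024)) :=
            mul_le_mul_of_nonneg_left (mul_le_mul_of_nonneg_left (by linarith) hQ) hR0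
    exact le_of_mul_le_mul_left h2 h0

theorem hDUA (hS : StSIG) (hO : StOFS) : StDUA := by
  intro m a b hm ha hab h12
  obtain ⟨C0, hC0, hev⟩ := hS (min a 1) (lt_min ha one_pos) (min_le_right _ _)
  have hmR : (1 : ℝ) ≤ m := by exact_mod_cast hm
  have hbm : 0 ≤ b * m := mul_nonneg (ha.le.trans hab) (by linarith)
  refine ⟨((m ^ m : ℕ) : ℝ) * (C0 * (1 + b * m) + 1024) + 1, by positivity, ?_⟩
  filter_upwards [hev, eventually_ge_atTop 2] with N hN hN2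
  obtain ⟨σ, hσ0, hσ1, hσ2, hσ3⟩ := hN
  intro δ S E f hf ψ hδ hSp hS1 hE hEc hdist hbig
  have hN2R : (2 : ℝ) ≤ N := by exact_mod_cast hN2
  have hN0 : (0 : ℝ) < N := by linarith
  have hN1 : (1 : ℝ) ≤ N := by linarith
  -- the interval
  have hNam : (N : ℝ) ^ (12 : ℕ) ≤ (N : ℝ) ^ (a * m) := by
    rw [← Real.rpow_natCast]
    exact Real.rpow_le_rpow_of_exponent_le hN1 (by exact_mod_cast h12)
  obtain ⟨X, hX⟩ : ∃ X, X = ⌈(N : ℝ) ^ (a * m)⌉₊ - 1 := ⟨_, rfl⟩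
  obtain ⟨Y, hY⟩ : ∃ Y, Y = ⌊(N : ℝ) ^ (b * m)⌋₊ := ⟨_, rfl⟩
  have hceil : 1 ≤ ⌈(N : ℝ) ^ (a * m)⌉₊ := Nat.one_le_ceil_iff.2 (by positivity)
  have hXlt : (X : ℝ) < (N : ℝ) ^ (a * m) := by
    apply Nat.lt_ceil.1
    omega
  have hXge : (N : ℝ) ^ 12 - 1 ≤ X := by
    have h1 : (N : ℝ) ^ (a * m) ≤ ⌈(N : ℝ) ^ (a * m)⌉₊ := Nat.le_ceil _
    have h2 : ((⌈(N : ℝ) ^ (a * m)⌉₊ : ℕ) : ℝ) = X + 1 := by
      have : ⌈(N : ℝ) ^ (a * m)⌉₊ = X + 1 := by omega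
      rw [this]
      push_cast
      ring
    linarith
  have hX3 : N ^ 3 ≤ X := by
    have h1 : (N : ℝ) ^ 3 ≤ X := by
      have h2 : (N : ℝ) ^ 12 = (N : ℝ) ^ 3 * (N : ℝ) ^ 9 := by ring
      have h3 : (2 : ℝ) ≤ (N : ℝ) ^ 9 := by
        calc (2 : ℝ) ≤ N := hN2R
          _ ≤ (N : ℝ) ^ 9 := le_self_pow₀ hN1 (by norm_num)
      have h4 : (1 : ℝ) ≤ (N : ℝ) ^ 3 := one_le_pow₀ hN1
      nlinarith
    exact_mod_cast h1
  have hX1 : 1 ≤ X := le_trans (Nat.one_le_pow _ _ (by omega)) hX3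
  have hXR : (1 : ℝ) ≤ X := by exact_mod_cast hX1
  have hXY : X ≤ Y := by
    rw [hY]
    apply Nat.le_floor
    exact hXlt.le.trans (Real.rpow_le_rpow_of_exponent_le hN1
      (mul_le_mul_of_nonneg_right hab (by linarith)))
  have hYR : (Y : ℝ) ≤ (N : ℝ) ^ (b * m) := by
    rw [hY]
    exact Nat.floor_le (by positivity)
  have hYX : (X : ℝ) ≤ Y := by exact_mod_cast hXY
  -- the diagonal
  have hsum : ∑ M ∈ Ioc X Y, σ M / M ≤ C0 * (1 + b * m) := by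
    refine (hσ2 X Y hX3 hXY).trans (mul_le_mul_of_nonneg_left ?_ hC0.le)
    have hlogN : 0 < Real.log N := Real.log_pos (by linarith)
    have h1 : Real.log ((Y : ℝ) / X) ≤ b * m * Real.log N := by
      rw [← Real.log_rpow hN0]
      apply Real.log_le_log (div_pos (by linarith) (by linarith))
      exact (div_le_self (by positivity) hXR).trans hYR
    have h2 : Real.log ((Y : ℝ) / X) / Real.log N ≤ b * m := by
      rw [div_le_iff₀ hlogN]
      exact h1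
    linarith
  -- the tuples
  have hP : ∀ t ∈ TT S m, ∏ i, t i ∈ Ioc X Y := by
    intro t ht
    have h1 : ∀ i, t i ∈ S := Fintype.mem_piFinset.1 ht
    have h2 : (N : ℝ) ^ (a * m) ≤ ((∏ i, t i : ℕ) : ℝ) := by
      rw [Nat.cast_prod]
      calc (N : ℝ) ^ (a * m) = ∏ _i : Fin m, (N : ℝ) ^ a := by
            rw [Finset.prod_const, Finset.card_univ, Fintype.card_fin, ← Real.rpow_natCast,
              ← Real.rpow_mul hN0.le]
        _ ≤ ∏ i, ((t i : ℕ) : ℝ) :=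
            Finset.prod_le_prod (fun i _ => by positivity) (fun i _ => (hSp _ (h1 i)).2.1)
    have h3 : ((∏ i, t i : ℕ) : ℝ) ≤ (N : ℝ) ^ (b * m) := by
      rw [Nat.cast_prod]
      calc ∏ i, ((t i : ℕ) : ℝ) ≤ ∏ _i : Fin m, (N : ℝ) ^ b :=
            Finset.prod_le_prod (fun i _ => by positivity) (fun i _ => (hSp _ (h1 i)).2.2)
        _ = (N : ℝ) ^ (b * m) := by
            rw [Finset.prod_const, Finset.card_univ, Fintype.card_fin, ← Real.rpow_natCast,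
              ← Real.rpow_mul hN0.le]
    refine Finset.mem_Ioc.2 ⟨?_, ?_⟩
    · have : (X : ℝ) < ((∏ i, t i : ℕ) : ℝ) := hXlt.trans_le h2
      exact_mod_cast this
    · rw [hY]
      exact Nat.le_floor h3
  have hσt : ∀ t ∈ TT S m, 1 ≤ σ (∏ i, t i) := by
    intro t ht
    have h1 : ∀ i, t i ∈ S := Fintype.mem_piFinset.1 ht
    refine hσ1 _ (Finset.prod_pos fun i _ => (hSp _ (h1 i)).1.pos) ?_
    intro p hp hpd
    obtain ⟨j, _, hj⟩ := (hp.prime.dvd_finsetProd_iff _).1 hpd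
    rw [(Nat.prime_dvd_prime_iff_eq hp (hSp _ (h1 j)).1).1 hj]
    exact (Real.rpow_le_rpow_of_exponent_le hN1 (min_le_left _ _)).trans (hSp _ (h1 j)).2.1
  have hinv : ∑ t ∈ TT S m, 1 / ((∏ i, t i : ℕ) : ℝ) ≤ 1 := by
    rw [tsum_inv]
    exact pow_le_one₀ (Finset.sum_nonneg fun p _ => by positivity) hS1
  have hmain := dual (TT S m) (fun t => ∏ i, t i) X Y (m ^ m) σ E
    (fun n M => ψ n (M : ZMod (f n))) (δ ^ m) (C0 * (1 + b * m)) (512 / (N : ℝ) ^ 6)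
    (by positivity) (by positivity) hinv (fun M => fib_card S m M (fun p hp => (hSp p hp).1))
    hP hσ0 hσt ?_ ?_ ?_
  · refine (fin_DUA (E.card : ℝ) N (δ ^ (2 * m)) (C0 * (1 + b * m)) ((m ^ m : ℕ) : ℝ)
      (512 / (N : ℝ) ^ 6) (Nat.cast_nonneg _) hN1 (Nat.cast_nonneg _) (by exact_mod_cast hEc)
      (by positivity) le_rfl ?_).trans (by linarith)
    have h1 : ((E.card : ℝ) * δ ^ m) ^ 2 = (E.card : ℝ) ^ 2 * δ ^ (2 * m) := by
      rw [mul_pow, ← pow_mul, mul_comm m 2]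
    rw [← h1]
    exact hmain
  · intro n hn
    have h1 := expandT S m (fun k => ψ n (k : ZMod (f n))) (by simp) (fun a b => by simp)
    have h2 : δ ^ m ≤ ‖(∑ p ∈ S, ψ n (p : ZMod (f n)) / p) ^ m‖ := by
      rw [norm_pow]
      exact pow_le_pow_left₀ hδ.le (hbig n hn) _
    rw [h1] at h2
    exact h2
  · intro n hn
    refine (norm_sum_le _ _).trans (le_trans (Finset.sum_le_sum fun M _ => ?_) hsum)
    have h1 : ‖ψ n (M : ZMod (f n))‖ ≤ 1 := DirichletCharacter.norm_le_one _ _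
    have h2 : ‖ψ n (M : ZMod (f n)) * (starRingEnd ℂ) (ψ n (M : ZMod (f n)))‖ ≤ 1 := by
      rw [norm_mul, RCLike.norm_conj]
      exact mul_le_one₀ h1 (norm_nonneg _) h1
    rw [norm_div, norm_mul, Complex.norm_natCast, Complex.norm_real, Real.norm_eq_abs,
      abs_of_nonneg (hσ0 M)]
    refine div_le_div_of_nonneg_right ?_ (Nat.cast_nonneg _)
    calc σ M * ‖ψ n (M : ZMod (f n)) * (starRingEnd ℂ) (ψ n (M : ZMod (f n)))‖ ≤ σ M * 1 :=
          mul_le_mul_of_nonneg_left h2 (hσ0 M)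
      _ = σ M := mul_one _
  · intro n hn n' hn' hne
    obtain ⟨hp1, hf1⟩ := hE n hn
    obtain ⟨hp2, hf2⟩ := hE n' hn'
    have hk := hdist n hn n' hn' hne
    have h1 := hσ3 (fun k => ψ n (k : ZMod (f n)) * (starRingEnd ℂ) (ψ n' (k : ZMod (f n'))))
      ((f n : ℝ) * f n') ?_ ?_ (by positivity) ?_ X Y hX3 hXY
    · refine h1.trans ?_
      have h2 : (f n : ℝ) ≤ 16 * (N : ℝ) ^ 2 := by exact_mod_cast hf1
      have h3 : (f n' : ℝ) ≤ 16 * (N : ℝ) ^ 2 := by exact_mod_cast hf2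
      have h4 : (f n : ℝ) * f n' ≤ (16 * (N : ℝ) ^ 2) * (16 * (N : ℝ) ^ 2) :=
        mul_le_mul h2 h3 (Nat.cast_nonneg _) (by positivity)
      have h5 : (f n : ℝ) * f n' * (N : ℝ) ^ 2 ≤ 256 * (N : ℝ) ^ 6 := by
        calc (f n : ℝ) * f n' * (N : ℝ) ^ 2 ≤
              (16 * (N : ℝ) ^ 2) * (16 * (N : ℝ) ^ 2) * (N : ℝ) ^ 2 :=
              mul_le_mul_of_nonneg_right h4 (by positivity)
          _ = 256 * (N : ℝ) ^ 6 := by ring
      have h6 : (N : ℝ) ^ 12 ≤ 2 * X := by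
        have h7 : (2 : ℝ) ≤ (N : ℝ) ^ 12 := hN2R.trans (le_self_pow₀ hN1 (by norm_num))
        linarith
      rw [div_le_div_iff₀ (by linarith) (by positivity)]
      have h8 : (N : ℝ) ^ 12 = (N : ℝ) ^ 6 * (N : ℝ) ^ 6 := by ring
      have h9 : 0 < (N : ℝ) ^ 6 := by positivity
      calc (f n : ℝ) * f n' * (N : ℝ) ^ 2 * (N : ℝ) ^ 6 ≤ 256 * (N : ℝ) ^ 6 * (N : ℝ) ^ 6 :=
            mul_le_mul_of_nonneg_right h5 h9.le
        _ = 256 * (N : ℝ) ^ 12 := by rw [h8]; ring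
        _ ≤ 256 * (2 * X) := by linarith
        _ = 512 * X := by ring
    · intro k l
      simp only [Nat.cast_mul, map_mul]
      ring
    · intro k
      rw [norm_mul, RCLike.norm_conj]
      exact mul_le_one₀ (DirichletCharacter.norm_le_one _ _) (norm_nonneg _)
        (DirichletCharacter.norm_le_one _ _)
    · intro X' Y' hX' hXY'
      exact hO (f n) (f n') (hf n) (hf n') (ψ n) (ψ n') hp1 hp2 hk X' Y' hX' hXY'

end Pool.Agent.Helper10.KS
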